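import Pool.Agent.H45.SN.DE

set_option autoImplicit false

/-! Steklov, part D: the regular polygon is a simple polygon and `regR n` is the region enclosed by it. -/

open Complex MeasureTheory

namespace Pool.Agent.H32.SN3

open Pool.Agent.H45.SN (side Simple Region reg regR rv RR)
open Pool.Agent.H32.SG (om tn seqZ seqZ_succ sim_reg region_of_reg om_pow norm_om tn_pos mem_seg Reg)
open Pool.Agent.H37.ST (rg Up reg_up RR_eq rg_eq dis_cone)

private lemma a_ne (n : ℕ) : (1 - tn n * I : ℂ) ≠ 0 := by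
  intro h
  have h2 := congrArg Complex.re h
  simp at h2

private lemma rg_reg {n : ℕ} (hn : 0 < n) (j : ℕ) : rg n j = (1 - tn n * I) * seqZ (reg n) j :=
  Pool.Agent.H45.SN.rv_reg hn j

private lemma range_eq {n : ℕ} (hn : 0 < n) :
    Set.range (rv n) = (fun z => (1 - tn n * I) * z) '' Set.range (reg n) := by
  have : NeZero n := ⟨hn.ne'⟩
  ext z
  constructor
  · rintro ⟨j, rfl⟩
    exact ⟨reg n (j : ZMod n), ⟨_, rfl⟩, (rg_reg hn j).symm⟩
  · rintro ⟨_, ⟨j, rfl⟩, rfl⟩
    refine ⟨j.val, ?_⟩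
    have h := rg_reg hn j.val
    have h2 : seqZ (reg n) j.val = reg n j := by simp [seqZ]
    rw [h2] at h
    exact h

private lemma RR_img {n : ℕ} (hn0 : 0 < n) : RR n = (fun z => (1 - tn n * I) * z) '' regR n := by
  have e2 : (Homeomorph.mulLeft₀ _ (a_ne n) : ℂ → ℂ) =
      (LinearMap.mulLeft ℝ (1 - tn n * I : ℂ) : ℂ → ℂ) := by
    funext z
    rfl
  have e3 : (fun z => (1 - tn n * I) * z) = (LinearMap.mulLeft ℝ (1 - tn n * I : ℂ) : ℂ → ℂ) := by
    funext z
    rfl
  unfold RR regR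
  rw [e3, ← e2, Homeomorph.image_interior, e2, LinearMap.image_convexHull, range_eq hn0, e3]

theorem reg_region {n : ℕ} [NeZero n] (hn : 3 ≤ n) : Region (reg n) (regR n) := by
  have hn0 : 0 < n := by omega
  have ha := a_ne n
  have h1 := sim_reg (inv_ne_zero ha) 0 (reg_up hn)
  have e1 : (fun j => (1 - tn n * I : ℂ)⁻¹ * rg n j + 0) = seqZ (reg n) := by
    funext j
    rw [rg_reg hn0, add_zero, ← mul_assoc, inv_mul_cancel₀ ha, one_mul]
  have e2 : (fun z => (1 - tn n * I : ℂ)⁻¹ * z + 0) '' Up n = regR n := by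
    rw [← RR_eq hn, RR_img hn0, Set.image_image]
    have e3 : (fun x : ℂ => (1 - tn n * I : ℂ)⁻¹ * ((1 - tn n * I) * x) + 0) = id := by
      funext x
      rw [add_zero, ← mul_assoc, inv_mul_cancel₀ ha, one_mul, id]
    rw [e3, Set.image_id]
  rw [e1, e2] at h1
  exact region_of_reg h1

private lemma conj_mul (n k : ℕ) : (starRingEnd ℂ) (om n ^ k) * om n ^ k = 1 := by
  have h := Complex.normSq_eq_conj_mul_self (z := om n ^ k)
  rw [← h, Complex.normSq_eq_norm_sq, norm_pow, norm_om]
  norm_num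

private lemma reg_pow {n : ℕ} (j : ZMod n) : reg n j = om n ^ j.val := by
  unfold reg om
  rw [← Complex.exp_nat_mul]
  congr 1
  push_cast
  ring

private lemma reg_inj {n : ℕ} [NeZero n] : Function.Injective (reg n) := by
  intro i j h
  rw [reg_pow, reg_pow] at h
  exact ZMod.val_injective n ((Complex.isPrimitiveRoot_exp n (NeZero.ne n)).pow_inj
    (ZMod.val_lt i) (ZMod.val_lt j) h)

private lemma mem_side {n : ℕ} [NeZero n] (hn : 3 ≤ n) {i : ZMod n} {x : ℂ} (hx : x ∈ side (reg n) i) :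
    ∃ s : ℝ, |s| ≤ tn n ∧ (1 - tn n * I) * x = om n ^ i.val * (1 + (s : ℂ) * I) ∧
      (s = tn n → x = reg n (i + 1)) ∧ (s = -tn n → x = reg n i) := by
  have hn0 : 0 < n := by omega
  have ha := a_ne n
  have ht := tn_pos hn
  obtain ⟨σ, h0, h1, hσ⟩ := mem_seg.1 hx
  have hA : (1 - tn n * I : ℂ) * reg n i = (1 - tn n * I) * om n ^ i.val := by
    have h := rg_reg hn0 i.val
    have h2 : seqZ (reg n) i.val = reg n i := by simp [seqZ]
    rw [h2] at h
    rw [← h]
    rfl
  have hB : (1 - tn n * I : ℂ) * reg n (i + 1) = (1 + tn n * I) * om n ^ i.val := by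
    have h := rg_reg hn0 (i.val + 1)
    have h2 : seqZ (reg n) (i.val + 1) = reg n (i + 1) := by
      rw [seqZ_succ]
      simp
    rw [h2, rg_eq hn] at h
    exact h.symm
  have hx2 : (1 - tn n * I) * x = om n ^ i.val * (1 + (((2 * σ - 1) * tn n : ℝ) : ℂ) * I) := by
    have e : (1 - tn n * I) * x = (1 - σ) * ((1 - tn n * I : ℂ) * reg n i) +
        σ * ((1 - tn n * I : ℂ) * reg n (i + 1)) := by
      rw [hσ]
      ring
    rw [e, hA, hB]
    push_cast
    ring
  refine ⟨(2 * σ - 1) * tn n, ?_, hx2, fun h => ?_, fun h => ?_⟩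
  · rw [abs_mul, abs_of_pos ht]
    have h2 : |2 * σ - 1| ≤ 1 := abs_le.2 ⟨by linarith, by linarith⟩
    calc |2 * σ - 1| * tn n ≤ 1 * tn n := mul_le_mul_of_nonneg_right h2 ht.le
      _ = tn n := one_mul _
  · apply mul_left_cancel₀ ha
    rw [hx2, hB, h]
    ring
  · apply mul_left_cancel₀ ha
    rw [hx2, hA, h]
    push_cast
    ring

private lemma side_end {n : ℕ} [NeZero n] (hn : 3 ≤ n) {i j : ZMod n} (hij : i ≠ j) {x : ℂ}
    (hi : x ∈ side (reg n) i) (hj : x ∈ side (reg n) j) : x = reg n j ∨ x = reg n (j + 1) := by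
  have hn0 : 0 < n := by omega
  have ht := tn_pos hn
  obtain ⟨s, hs, h1, -, -⟩ := mem_side hn hi
  obtain ⟨u, hu, h2, h3, h4⟩ := mem_side hn hj
  by_cases hlt : |u| < tn n
  · exfalso
    have hv : i.val ≠ j.val := fun h => hij (ZMod.val_injective n h)
    have hil := ZMod.val_lt i
    have hjl := ZMod.val_lt j
    -- the exponent
    set m := (j.val + (n - i.val)) % n with hm
    have hmn : m < n := Nat.mod_lt _ hn0
    have hm1 : 1 ≤ m := by
      rw [hm]
      rcases Nat.lt_or_ge j.val i.val with h | h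
      · rw [Nat.mod_eq_of_lt (by omega)]
        omega
      · have e : j.val + (n - i.val) = (j.val - i.val) + n := by omega
        rw [e, Nat.add_mod_right, Nat.mod_eq_of_lt (by omega)]
        omega
    have hpow : om n ^ m = (starRingEnd ℂ) (om n ^ i.val) * om n ^ j.val := by
      have e1 : om n ^ (j.val + (n - i.val)) = om n ^ m := pow_eq_pow_mod _ (om_pow hn0)
      rw [← e1]
      have e2 : om n ^ i.val * om n ^ (j.val + (n - i.val)) = om n ^ j.val := by
        have e3 : i.val + (j.val + (n - i.val)) = j.val + n := by omega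
        rw [← pow_add, e3, pow_add, om_pow hn0, mul_one]
      calc om n ^ (j.val + (n - i.val))
          = ((starRingEnd ℂ) (om n ^ i.val) * om n ^ i.val) * om n ^ (j.val + (n - i.val)) := by
            rw [conj_mul, one_mul]
        _ = (starRingEnd ℂ) (om n ^ i.val) * (om n ^ i.val * om n ^ (j.val + (n - i.val))) := by ring
        _ = _ := by rw [e2]
    have h5 := dis_cone hn (ζ := 1 + (u : ℂ) * I) (by simpa using hlt) hm1 hmn
    have h6 : om n ^ m * (1 + (u : ℂ) * I) = 1 + (s : ℂ) * I := by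
      rw [hpow, mul_assoc, ← h2, h1, ← mul_assoc, conj_mul, one_mul]
    rw [h6] at h5
    simp at h5
  · have h5 : |u| = tn n := le_antisymm hu (not_lt.1 hlt)
    rcases abs_eq ht.le |>.1 h5 with h | h
    · exact Or.inr (h3 h)
    · exact Or.inl (h4 h)

theorem reg_simple {n : ℕ} [NeZero n] (hn : 3 ≤ n) : Simple (reg n) := by
  have : Fact (1 < n) := ⟨by omega⟩
  refine ⟨fun j h => ?_, fun i j hij x hi hj => ?_⟩
  · have h1 := reg_inj h
    exact one_ne_zero (left_eq_add.1 h1)
  · rcases side_end hn hij hi hj with h1 | h1 <;> rcases side_end hn hij.symm hj hi with h2 | h2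
    · exact absurd (reg_inj (h2.symm.trans h1)) hij
    · exact Or.inl ⟨reg_inj (h1.symm.trans h2), h1⟩
    · exact Or.inr ⟨reg_inj (h2.symm.trans h1), h2⟩
    · exact absurd (add_right_cancel (reg_inj (h2.symm.trans h1))) hij

end Pool.Agent.H32.SN3
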